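import Pool.Agent.Lib.MP_edb5be_nt.ND.H57.S1A
import Pool.Agent.Lib.MP_edb5be_nt.ND.Iface3

/-!
# ND : module S1AP
-/

set_option autoImplicit false

namespace Pool.Agent.Lib.MP_edb5be_nt.ND.H57

open Finset Pool.Agent.Lib.MP_0a5adf_nt.TP Pool.Agent.Lib.MP_0a5adf_nt.H55

/-- the largeness conditions on `z`, arbitrary powers -/
lemma evA (A : ℕ) : ∃ z₀ : ℝ, ∀ z : ℝ, z₀ ≤ z → 10000 ≤ z ∧ z ^ (3 / 5 : ℝ) + 1 ≤ z / 1000 ∧
    z ^ A * (8 * ((z + 1) * Real.exp (-z ^ (1 / 5 : ℝ)))) ≤ 1 ∧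
    z ^ A * ((3 * z ^ (A + 3) + 4) * (2 : ℝ) ^ (-(z / 2)) * (4 * z + 5)) ≤ 1 := by
  have hy : Filter.Tendsto (fun z : ℝ => z ^ (1 / 5 : ℝ)) Filter.atTop Filter.atTop :=
    tendsto_rpow_atTop (by norm_num)
  have hA : Filter.Tendsto (fun z : ℝ => 16 * ((z ^ (1 / 5 : ℝ)) ^ (5 * (A + 1)) *
      Real.exp (-z ^ (1 / 5 : ℝ)))) Filter.atTop (nhds 0) := by
    have h := ((Real.tendsto_pow_mul_exp_neg_atTop_nhds_zero (5 * (A + 1))).comp hy).const_mul 16
    simpa [Function.comp_def] using h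
  have h3 : Filter.Tendsto (fun z : ℝ => z / 3) Filter.atTop Filter.atTop :=
    Filter.tendsto_id.atTop_div_const (by norm_num)
  have hBt : Filter.Tendsto (fun z : ℝ => (20 * 3 ^ (2 * A + 4)) * ((z / 3) ^ (2 * A + 4) *
      Real.exp (-(z / 3)))) Filter.atTop (nhds 0) := by
    have h := ((Real.tendsto_pow_mul_exp_neg_atTop_nhds_zero (2 * A + 4)).comp h3).const_mul
      (20 * 3 ^ (2 * A + 4) : ℝ)
    simpa [Function.comp_def] using h
  have E1 := hA.eventually_le_const (show (0 : ℝ) < 1 by norm_num)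
  have E2 := hBt.eventually_le_const (show (0 : ℝ) < 1 by norm_num)
  obtain ⟨z₁, hz₁⟩ := ev
  have E3 := Filter.eventually_ge_atTop z₁
  obtain ⟨z₀, hz₀⟩ := Filter.eventually_atTop.1 (E1.and (E2.and E3))
  refine ⟨z₀, fun z hz => ?_⟩
  obtain ⟨h1, h2, h3⟩ := hz₀ z hz
  obtain ⟨h4, h5, -, -⟩ := hz₁ z h3
  have hz0 : (0 : ℝ) ≤ z := by linarith
  refine ⟨h4, h5, ?_, ?_⟩
  · refine le_trans ?_ h1
    set y := z ^ (1 / 5 : ℝ) with hydef
    have hzy : y ^ 5 = z := by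
      rw [hydef, ← Real.rpow_natCast, ← Real.rpow_mul hz0]
      norm_num
    rw [pow_mul, hzy]
    have hE : 0 ≤ Real.exp (-y) := (Real.exp_pos _).le
    have hzA : 0 ≤ z ^ A := by positivity
    calc z ^ A * (8 * ((z + 1) * Real.exp (-y))) = z ^ A * (8 * (z + 1)) * Real.exp (-y) := by ring
      _ ≤ z ^ A * (16 * z) * Real.exp (-y) :=
          mul_le_mul_of_nonneg_right (mul_le_mul_of_nonneg_left (by linarith) hzA) hE
      _ = _ := by ring
  · refine le_trans ?_ h2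
    have hlog : (2 : ℝ) / 3 ≤ Real.log 2 := by have := Real.log_two_gt_d9; linarith
    have h5 : (2 : ℝ) ^ (-(z / 2)) ≤ Real.exp (-(z / 3)) := by
      rw [Real.rpow_def_of_pos (by norm_num)]
      apply Real.exp_le_exp.2
      nlinarith
    have h6 : 3 * z ^ (A + 3) + 4 ≤ 4 * z ^ (A + 3) := by
      have : (10000 : ℝ) ≤ z ^ (A + 3) := by
        calc (10000 : ℝ) ≤ z := h4
          _ = z ^ 1 := (pow_one z).symm
          _ ≤ z ^ (A + 3) := pow_le_pow_right₀ (by linarith) (by omega)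
      linarith
    have h7 : 4 * z + 5 ≤ 5 * z := by linarith
    have hE : 0 ≤ Real.exp (-(z / 3)) := (Real.exp_pos _).le
    have h8 : (0 : ℝ) ≤ z ^ (A + 3) := by positivity
    calc z ^ A * ((3 * z ^ (A + 3) + 4) * (2 : ℝ) ^ (-(z / 2)) * (4 * z + 5))
        ≤ z ^ A * ((4 * z ^ (A + 3)) * Real.exp (-(z / 3)) * (5 * z)) := by
          refine mul_le_mul_of_nonneg_left ?_ (by positivity)
          refine mul_le_mul ?_ h7 (by linarith) (by positivity)
          exact mul_le_mul h6 h5 (by positivity) (by positivity)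
      _ = (20 * 3 ^ (2 * A + 4)) * ((z / 3) ^ (2 * A + 4) * Real.exp (-(z / 3))) := by
          rw [div_pow]
          have h9 : (3 : ℝ) ^ (2 * A + 4) ≠ 0 := by positivity
          field_simp
          ring

/-- Module S1AP -/
theorem s1ap (hD : DynStatement) (hP : PathStatement) (hB : BadNStatement) (hF : PhiStatement) :
    S1APStatement := by
  classical
  intro A
  obtain ⟨z₀, hz₀⟩ := evA A
  refine ⟨2, z₀, by norm_num, ?_⟩
  intro d B lo g L z i D k hz hlo hInv hL0 hLz hg hi1 hi2 hDd hk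
  obtain ⟨e1, e2, e3, e4⟩ := hz₀ z hz
  have hz0 : (0 : ℝ) < z := by linarith
  have hzA : (0 : ℝ) < z ^ A := by positivity
  refine (core hD hP hB hF d B lo g L z i D k e1 e2 hlo hInv hL0 hg hi1 hi2 hDd hk).trans ?_
  have hE1 : 8 * ((z + 1) * Real.exp (-z ^ (1 / 5 : ℝ))) ≤ 1 / z ^ A := by
    rw [le_div_iff₀ hzA]
    linarith
  have hE2 : (3 * L + 4) * (2 : ℝ) ^ (-(z / 2)) * (4 * z + 5) ≤ 1 / z ^ A := by
    rw [le_div_iff₀ hzA]
    calc (3 * L + 4) * (2 : ℝ) ^ (-(z / 2)) * (4 * z + 5) * z ^ A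
        ≤ (3 * z ^ (A + 3) + 4) * (2 : ℝ) ^ (-(z / 2)) * (4 * z + 5) * z ^ A := by
          refine mul_le_mul_of_nonneg_right ?_ hzA.le
          refine mul_le_mul_of_nonneg_right ?_ (by linarith)
          exact mul_le_mul_of_nonneg_right (by linarith) (by positivity)
      _ = z ^ A * ((3 * z ^ (A + 3) + 4) * (2 : ℝ) ^ (-(z / 2)) * (4 * z + 5)) := by ring
      _ ≤ 1 := e4
  calc _ ≤ 1 / z ^ A + 1 / z ^ A := add_le_add hE1 hE2
    _ = 2 / z ^ A := by ring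

end Pool.Agent.Lib.MP_edb5be_nt.ND.H57
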