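import Pool.Agent.Lib.MP_edb5be_nt.ND.H82.S1BP

/-!
# ND : S1BP for small `m`

As `S1BP`, with the condition `z ≤ m ^ 8` in place of `z ≤ 300 * m`.
-/

set_option autoImplicit false

namespace Pool.Agent.Lib.MP_edb5be_nt.ND.H57

open Finset Pool.Agent.Lib.MP_0a5adf_nt.TP Pool.Agent.Lib.MP_0a5adf_nt.TP.H60
open Pool.Agent.Lib.MP_edb5be_nt.ND.H82 (mem_typ Es Es_eq Es_le sum_Es nontyp exp_bound_p)

open Classical in
/-- S1BQ: as `S1BPStatement`, for `z ≤ m ^ 8`. -/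
def S1BQStatement : Prop :=
  ∀ A : ℕ, ∃ C z₀ : ℝ, 0 < C ∧
    ∀ (d : Bool) (B : Set ℕ) (g : ℝ → ℝ) (L z : ℝ) (i m D k : ℕ),
    z₀ ≤ z → Bump L g → (i : ℝ) ≤ z / 10 → 4 * m ≤ i → z ≤ (m : ℝ) ^ 8 →
    D = dev ⌊z⌋₊ → k = ⌊z - mu * i⌋₊ →
    |∑ M ∈ (blk (k - 2 * D) (4 * D + 4)).filter (fun M => M ∈ B), 1 / (M : ℝ) *
        ∑ s ∈ typ i D, 3 ^ s * Pc s i s (sg d * M) * g (Real.logb 2 M + i - th * s - z) -
      ∑ c ∈ range (i + 1), PJ (i - c) (Rm d B g m c) (z - c + th * m)| ≤ C / z ^ A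

open Classical in
/-- The first error term, for a subset of the typical levels. -/
theorem mix_err_q (hmix : MixStatement) {C₄ : ℝ} {E : ℕ} (hC : 0 < C₄)
    (hjosc : ∀ n c₁ : ℕ, 1 ≤ n → Josc n c₁ ≤ C₄ / (n : ℝ) ^ E) {d : Bool} {B : Set ℕ}
    {g : ℝ → ℝ} {L z : ℝ} (hg : Bump L g) {i m D k : ℕ} (hm : 1 ≤ m) {Ts : Finset ℕ}
    (hs : ∀ s ∈ Ts, s ≤ i ∧ m ≤ s ∧ 3 ^ s ≤ 2 ^ (k - 2 * D)) :
    |∑ M ∈ (blk (k - 2 * D) (4 * D + 4)).filter (fun M => M ∈ B), 1 / (M : ℝ) *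
        ∑ s ∈ Ts, 3 ^ s * Pc s i s (sg d * M) * g (Real.logb 2 M + i - th * s - z) -
      ∑ s ∈ Ts, ∑ M ∈ (blk (k - 2 * D) (4 * D + 4)).filter (fun M => M ∈ B),
        1 / (M : ℝ) * (3 ^ m * Pc m i s (sg d * M) * g (Real.logb 2 M + i - th * s - z))| ≤
      2 * (((i : ℝ) + 1) * ((4 * D + 5) * (i * (C₄ / (m : ℝ) ^ E)))) := by
  classical
  have hm0 : (0 : ℝ) < m := by exact_mod_cast hm
  have e1 : ∑ M ∈ (blk (k - 2 * D) (4 * D + 4)).filter (fun M => M ∈ B), 1 / (M : ℝ) *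
        ∑ s ∈ Ts, 3 ^ s * Pc s i s (sg d * M) * g (Real.logb 2 M + i - th * s - z) =
      ∑ s ∈ Ts, ∑ M ∈ (blk (k - 2 * D) (4 * D + 4)).filter (fun M => M ∈ B),
        1 / (M : ℝ) * (3 ^ s * Pc s i s (sg d * M) * g (Real.logb 2 M + i - th * s - z)) := by
    simp_rw [Finset.mul_sum]
    rw [Finset.sum_comm]
  rw [e1, ← Finset.sum_sub_distrib]
  have h1 : ∀ s ∈ Ts,
      |∑ M ∈ (blk (k - 2 * D) (4 * D + 4)).filter (fun M => M ∈ B),
          1 / (M : ℝ) * (3 ^ s * Pc s i s (sg d * M) * g (Real.logb 2 M + i - th * s - z)) -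
        ∑ M ∈ (blk (k - 2 * D) (4 * D + 4)).filter (fun M => M ∈ B),
          1 / (M : ℝ) * (3 ^ m * Pc m i s (sg d * M) * g (Real.logb 2 M + i - th * s - z))| ≤
      2 * ((4 * D + 5) * (i * (C₄ / (m : ℝ) ^ E))) := by
    intro s hst
    obtain ⟨hsi, hms, h3s⟩ := hs s hst
    have hnn : ∀ M : ℕ, 0 ≤ 1 / (M : ℝ) *
        |3 ^ s * Pc s i s (sg d * M) - 3 ^ m * Pc m i s (sg d * M)| := by
      intro M
      positivity
    have hmx := hmix d m i s (k - 2 * D) (4 * D + 4) hms h3s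
    have hj : ∑ n ∈ Ioc m s, Josc n (i + 1) ≤ i * (C₄ / (m : ℝ) ^ E) := by
      refine (Finset.sum_le_card_nsmul _ _ (C₄ / (m : ℝ) ^ E) ?_).trans ?_
      · intro n hn
        obtain ⟨h1, h2⟩ := Finset.mem_Ioc.1 hn
        refine (hjosc n (i + 1) (by omega)).trans ?_
        apply div_le_div_of_nonneg_left hC.le (by positivity)
        apply pow_le_pow_left₀ hm0.le
        exact_mod_cast h1.le
      · rw [nsmul_eq_mul, Nat.card_Ioc]
        apply mul_le_mul_of_nonneg_right _ (by positivity)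
        exact_mod_cast (by omega : s - m ≤ i)
    rw [← Finset.sum_sub_distrib]
    calc |∑ M ∈ (blk (k - 2 * D) (4 * D + 4)).filter (fun M => M ∈ B),
          (1 / (M : ℝ) * (3 ^ s * Pc s i s (sg d * M) * g (Real.logb 2 M + i - th * s - z)) -
          1 / (M : ℝ) * (3 ^ m * Pc m i s (sg d * M) * g (Real.logb 2 M + i - th * s - z)))|
        ≤ ∑ M ∈ (blk (k - 2 * D) (4 * D + 4)).filter (fun M => M ∈ B),
          |1 / (M : ℝ) * (3 ^ s * Pc s i s (sg d * M) * g (Real.logb 2 M + i - th * s - z)) -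
          1 / (M : ℝ) * (3 ^ m * Pc m i s (sg d * M) * g (Real.logb 2 M + i - th * s - z))| :=
          Finset.abs_sum_le_sum_abs _ _
      _ ≤ ∑ M ∈ (blk (k - 2 * D) (4 * D + 4)).filter (fun M => M ∈ B),
          2 * (1 / (M : ℝ) * |3 ^ s * Pc s i s (sg d * M) - 3 ^ m * Pc m i s (sg d * M)|) := by
          refine Finset.sum_le_sum fun M _ => ?_
          have e2 : 1 / (M : ℝ) * (3 ^ s * Pc s i s (sg d * M) *
              g (Real.logb 2 M + i - th * s - z)) -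
              1 / (M : ℝ) * (3 ^ m * Pc m i s (sg d * M) *
                g (Real.logb 2 M + i - th * s - z)) =
              g (Real.logb 2 M + i - th * s - z) * (1 / (M : ℝ) *
                (3 ^ s * Pc s i s (sg d * M) - 3 ^ m * Pc m i s (sg d * M))) := by ring
          rw [e2, abs_mul, abs_mul (1 / (M : ℝ)), abs_of_nonneg (show 0 ≤ 1 / (M : ℝ) by positivity)]
          exact mul_le_mul_of_nonneg_right (hg.bd _) (hnn M)
      _ ≤ ∑ M ∈ blk (k - 2 * D) (4 * D + 4),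
          2 * (1 / (M : ℝ) * |3 ^ s * Pc s i s (sg d * M) - 3 ^ m * Pc m i s (sg d * M)|) := by
          refine Finset.sum_le_sum_of_subset_of_nonneg (Finset.filter_subset _ _)
            fun M _ _ => by
              have := hnn M
              linarith
      _ = 2 * ∑ M ∈ blk (k - 2 * D) (4 * D + 4),
          1 / (M : ℝ) * |3 ^ s * Pc s i s (sg d * M) - 3 ^ m * Pc m i s (sg d * M)| := by
          rw [Finset.mul_sum]
      _ ≤ 2 * ((((4 * D + 4 : ℕ) : ℝ) + 1) * ∑ n ∈ Ioc m s, Josc n (i + 1)) := by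
          linarith
      _ ≤ 2 * ((4 * D + 5) * (i * (C₄ / (m : ℝ) ^ E))) := by
          have e3 : (((4 * D + 4 : ℕ) : ℝ) + 1) = 4 * D + 5 := by
            push_cast
            ring
          rw [e3]
          have : (0 : ℝ) ≤ 4 * D + 5 := by positivity
          have := mul_le_mul_of_nonneg_left hj this
          linarith
  refine (Finset.abs_sum_le_sum_abs _ _).trans ((Finset.sum_le_card_nsmul _ _ _ h1).trans ?_)
  rw [nsmul_eq_mul]
  have h2 : (Ts.card : ℝ) ≤ (i : ℝ) + 1 := by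
    have : Ts.card ≤ (range (i + 1)).card := Finset.card_le_card fun s hs' =>
      Finset.mem_range.2 (by have := (hs s hs').1; omega)
    rw [Finset.card_range] at this
    exact_mod_cast this
  have h3 : 0 ≤ 2 * ((4 * (D : ℝ) + 5) * (i * (C₄ / (m : ℝ) ^ E))) := by positivity
  calc (Ts.card : ℝ) * (2 * ((4 * D + 5) * (i * (C₄ / (m : ℝ) ^ E)))) ≤
      ((i : ℝ) + 1) * (2 * ((4 * D + 5) * (i * (C₄ / (m : ℝ) ^ E)))) :=
        mul_le_mul_of_nonneg_right h2 h3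
    _ = _ := by ring

open Classical in
/-- The levels below `m` carry a negligible mass. -/
theorem small_err (hphi : PhiStatement) (hh : HoeffStatement) {d : Bool} {B : Set ℕ}
    {g : ℝ → ℝ} {L z : ℝ} (hg : Bump L g) {i m D k : ℕ} (hm : 1 ≤ m) (h4m : 4 * m ≤ i)
    {Ts : Finset ℕ} (hs : ∀ s ∈ Ts, s ≤ i ∧ s < m ∧ 3 ^ s ≤ 2 ^ (k - 2 * D)) :
    |∑ M ∈ (blk (k - 2 * D) (4 * D + 4)).filter (fun M => M ∈ B), 1 / (M : ℝ) *
        ∑ s ∈ Ts, 3 ^ s * Pc s i s (sg d * M) * g (Real.logb 2 M + i - th * s - z)| ≤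
      4 * ((4 * D + 5) * Real.exp (-((m : ℝ) / 2))) := by
  classical
  have hi0 : 0 < i := by omega
  have hi0' : (0 : ℝ) < i := by exact_mod_cast hi0
  have hnn : ∀ (s : ℕ) (M : ℕ), 0 ≤ 1 / (M : ℝ) * (3 ^ s * Pc s i s (sg d * M)) := by
    intro s M
    have := H82.Pc_nonneg s i s (sg d * M)
    positivity
  have h1 : |∑ M ∈ (blk (k - 2 * D) (4 * D + 4)).filter (fun M => M ∈ B), 1 / (M : ℝ) *
        ∑ s ∈ Ts, 3 ^ s * Pc s i s (sg d * M) * g (Real.logb 2 M + i - th * s - z)| ≤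
      ∑ M ∈ blk (k - 2 * D) (4 * D + 4), ∑ s ∈ Ts,
        2 * (1 / (M : ℝ) * (3 ^ s * Pc s i s (sg d * M))) := by
    refine (Finset.abs_sum_le_sum_abs _ _).trans ?_
    refine (Finset.sum_le_sum (g := fun M : ℕ => ∑ s ∈ Ts,
      2 * (1 / (M : ℝ) * (3 ^ s * Pc s i s (sg d * M)))) fun M _ => ?_).trans ?_
    · rw [Finset.mul_sum]
      refine (Finset.abs_sum_le_sum_abs _ _).trans (Finset.sum_le_sum fun s _ => ?_)
      have e : 1 / (M : ℝ) * (3 ^ s * Pc s i s (sg d * M) *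
          g (Real.logb 2 M + i - th * s - z)) = g (Real.logb 2 M + i - th * s - z) *
          (1 / (M : ℝ) * (3 ^ s * Pc s i s (sg d * M))) := by ring
      rw [e, abs_mul, abs_of_nonneg (hnn s M)]
      exact mul_le_mul_of_nonneg_right (hg.bd _) (hnn s M)
    · exact Finset.sum_le_sum_of_subset_of_nonneg (Finset.filter_subset _ _) fun M _ _ =>
        Finset.sum_nonneg fun s _ => by
          have := hnn s M
          linarith
  refine h1.trans ?_
  rw [Finset.sum_comm]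
  have h2 : ∀ s ∈ Ts, ∑ M ∈ blk (k - 2 * D) (4 * D + 4),
      2 * (1 / (M : ℝ) * (3 ^ s * Pc s i s (sg d * M))) ≤
      2 * ((4 * D + 5) * ((i.choose s : ℝ) / 2 ^ i)) := by
    intro s hs'
    obtain ⟨-, -, h3⟩ := hs s hs'
    rw [← Finset.mul_sum]
    have h4 := hphi.2.2.1 d s i s (k - 2 * D) (4 * D + 4) h3
    have e3 : (((4 * D + 4 : ℕ) : ℝ) + 1) = 4 * D + 5 := by
      push_cast
      ring
    rw [e3] at h4
    linarith
  refine (Finset.sum_le_sum h2).trans ?_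
  rw [← Finset.mul_sum, ← Finset.mul_sum, ← Finset.sum_div]
  have hsub : Ts ⊆ (range (i + 1)).filter (fun k : ℕ => (i : ℝ) / 4 ≤ |(k : ℝ) - i / 2|) := by
    intro s hs'
    obtain ⟨h3, h4, -⟩ := hs s hs'
    refine Finset.mem_filter.2 ⟨Finset.mem_range.2 (by omega), ?_⟩
    have h5 : (4 : ℝ) * s ≤ i := by exact_mod_cast (by omega : 4 * s ≤ i)
    rw [abs_sub_comm]
    refine le_trans ?_ (le_abs_self _)
    linarith
  have h3 := hh i ((i : ℝ) / 4) (by positivity)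
  have e : 2 * ((i : ℝ) / 4) ^ 2 / i = (i : ℝ) / 8 := by
    field_simp
    norm_num
  rw [e] at h3
  have h4 : (∑ s ∈ Ts, (i.choose s : ℝ)) / 2 ^ i ≤ 2 * Real.exp (-((m : ℝ) / 2)) := by
    rw [div_le_iff₀ (by positivity)]
    have h5 : Real.exp (-((i : ℝ) / 8)) ≤ Real.exp (-((m : ℝ) / 2)) := by
      apply Real.exp_le_exp.2
      have : (4 : ℝ) * m ≤ i := by exact_mod_cast h4m
      linarith
    calc ∑ s ∈ Ts, (i.choose s : ℝ) ≤
        ∑ k ∈ (range (i + 1)).filter (fun k : ℕ => (i : ℝ) / 4 ≤ |(k : ℝ) - i / 2|),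
          (i.choose k : ℝ) :=
          Finset.sum_le_sum_of_subset_of_nonneg hsub fun _ _ _ => by positivity
      _ ≤ 2 * 2 ^ i * Real.exp (-((i : ℝ) / 8)) := h3
      _ ≤ 2 * 2 ^ i * Real.exp (-((m : ℝ) / 2)) :=
          mul_le_mul_of_nonneg_left h5 (by positivity)
      _ = _ := by ring
  have h6 : (0 : ℝ) ≤ 2 * (4 * D + 5) := by positivity
  have h7 := mul_le_mul_of_nonneg_left h4 h6
  linarith

/-- `z ^ A * exp (- m / 2)` is bounded for `z ≤ m ^ 8`. -/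
theorem exp_bound_q (A : ℕ) {m : ℕ} {z : ℝ} (hz : 0 ≤ z) (hzm : z ≤ (m : ℝ) ^ 8) :
    z ^ A * Real.exp (-((m : ℝ) / 2)) ≤ Nat.factorial (8 * A) * 2 ^ (8 * A) := by
  have h3 : ((m : ℝ) / 2) ^ (8 * A) / (Nat.factorial (8 * A) : ℝ) ≤ Real.exp ((m : ℝ) / 2) :=
    Real.pow_div_factorial_le_exp ((m : ℝ) / 2) (by positivity) (8 * A)
  have hf : (0 : ℝ) < (Nat.factorial (8 * A) : ℝ) := by positivity
  have h4 : z ^ A ≤ (m : ℝ) ^ (8 * A) := by
    rw [pow_mul]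
    exact pow_le_pow_left₀ hz hzm A
  have h5 : (m : ℝ) ^ (8 * A) ≤ Real.exp ((m : ℝ) / 2) *
      (Nat.factorial (8 * A) * 2 ^ (8 * A)) := by
    rw [div_pow, div_div, div_le_iff₀ (by positivity)] at h3
    linarith
  calc z ^ A * Real.exp (-((m : ℝ) / 2)) ≤
      (Real.exp ((m : ℝ) / 2) * (Nat.factorial (8 * A) * 2 ^ (8 * A))) *
        Real.exp (-((m : ℝ) / 2)) :=
        mul_le_mul_of_nonneg_right (h4.trans h5) (Real.exp_pos _).le
    _ = (Nat.factorial (8 * A) * 2 ^ (8 * A)) *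
        (Real.exp ((m : ℝ) / 2) * Real.exp (-((m : ℝ) / 2))) := by ring
    _ = _ := by rw [← Real.exp_add]; simp

open Classical in
/-- S1BQ. -/
theorem s1bq (hmix : MixStatement) (hjosc : JoscStatement) (hps : PsplitStatement)
    (hphi : PhiStatement) (hh : HoeffStatement) : S1BQStatement := by
  intro A
  obtain ⟨C₄, hC, hj4⟩ := hjosc (8 * (A + 3))
  refine ⟨2 * C₄ + 12 * (2 ^ A * (Nat.factorial (5 * A) * 4 ^ (5 * A))) +
    4 * (Nat.factorial (8 * (A + 1)) * 2 ^ (8 * (A + 1))), 10 ^ 11, by positivity, ?_⟩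
  intro d B g L z i m D k hz hg hi h4m hzm hD hk
  -- the parameters
  set K : ℕ := ⌊z⌋₊ with hK
  have hz0 : 0 ≤ z := by linarith
  have hK1 : (K : ℝ) ≤ z := Nat.floor_le hz0
  have hK2 : z < K + 1 := Nat.lt_floor_add_one z
  have hK3 : 10 ^ 10 ≤ K := by
    rw [hK]
    refine Nat.le_floor ?_
    push_cast
    linarith
  obtain ⟨hD2, hD200⟩ := dev_small hK3
  rw [← hD] at hD2 hD200
  have hD200' : 200 * (D : ℝ) ≤ K := by exact_mod_cast hD200
  have hm0 : 0 < m := by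
    rcases Nat.eq_zero_or_pos m with h | h
    · rw [h] at hzm
      norm_num at hzm
      linarith
    · exact h
  have h4m' : 4 * (m : ℝ) ≤ i := by exact_mod_cast h4m
  have hi0 : 0 < i := by omega
  have hth := th_lt
  have hth' := th_gt
  have hmu : mu = 1 - th / 2 := rfl
  have hi0' : (0 : ℝ) ≤ i := Nat.cast_nonneg i
  have hmui : mu * (i : ℝ) ≤ 1 / 4 * i := by
    refine mul_le_mul_of_nonneg_right ?_ hi0'
    rw [hmu]
    linarith
  have h0 : 0 ≤ z - mu * i := by linarith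
  have hk2 : z - mu * i < k + 1 := by
    rw [hk]
    exact Nat.lt_floor_add_one _
  have hkbig : 39 / 40 * z - 1 ≤ k := by linarith
  have hkD : 2 * D ≤ k := by
    have : 2 * (D : ℝ) ≤ k := by linarith
    exact_mod_cast this
  have hkD' : ((k - 2 * D : ℕ) : ℝ) = k - 2 * D := by
    rw [Nat.cast_sub hkD]
    push_cast
    ring
  have htyp : ∀ s ∈ typ i D, 3 ^ s ≤ 2 ^ (k - 2 * D) := by
    intro s hs
    obtain ⟨h1, h2, h3⟩ := mem_typ hs
    refine H82.three_pow_le ?_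
    rw [hkD']
    linarith
  have hmi : m ≤ i := by omega
  -- the levels
  set Th : Finset ℕ := (typ i D).filter (fun s => m ≤ s) with hTh
  set Tl : Finset ℕ := (typ i D).filter (fun s => ¬ m ≤ s) with hTl
  have hThs : ∀ s ∈ Th, s ≤ i ∧ m ≤ s ∧ 3 ^ s ≤ 2 ^ (k - 2 * D) := by
    intro s hs
    rw [hTh, Finset.mem_filter] at hs
    exact ⟨(mem_typ hs.1).1, hs.2, htyp s hs.1⟩
  have hTls : ∀ s ∈ Tl, s ≤ i ∧ s < m ∧ 3 ^ s ≤ 2 ^ (k - 2 * D) := by
    intro s hs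
    rw [hTl, Finset.mem_filter] at hs
    exact ⟨(mem_typ hs.1).1, by omega, htyp s hs.1⟩
  have hsplit : ∑ M ∈ (blk (k - 2 * D) (4 * D + 4)).filter (fun M => M ∈ B), 1 / (M : ℝ) *
        ∑ s ∈ typ i D, 3 ^ s * Pc s i s (sg d * M) * g (Real.logb 2 M + i - th * s - z) =
      ∑ M ∈ (blk (k - 2 * D) (4 * D + 4)).filter (fun M => M ∈ B), 1 / (M : ℝ) *
        ∑ s ∈ Th, 3 ^ s * Pc s i s (sg d * M) * g (Real.logb 2 M + i - th * s - z) +
      ∑ M ∈ (blk (k - 2 * D) (4 * D + 4)).filter (fun M => M ∈ B), 1 / (M : ℝ) *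
        ∑ s ∈ Tl, 3 ^ s * Pc s i s (sg d * M) * g (Real.logb 2 M + i - th * s - z) := by
    rw [← Finset.sum_add_distrib]
    refine Finset.sum_congr rfl fun M _ => ?_
    rw [← mul_add, hTh, hTl, Finset.sum_filter_add_sum_filter_not]
  -- the main chain
  have herr1 := mix_err_q hmix hC hj4 (d := d) (B := B) (z := z) (D := D) (k := k) hg hm0 hThs
  have herr0 := small_err hphi hh (d := d) (B := B) (z := z) (D := D) (k := k) hg hm0 h4m hTls
  have e2 : ∑ s ∈ Th, ∑ M ∈ (blk (k - 2 * D) (4 * D + 4)).filter (fun M => M ∈ B),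
        1 / (M : ℝ) * (3 ^ m * Pc m i s (sg d * M) * g (Real.logb 2 M + i - th * s - z)) =
      ∑ s ∈ Th, Es d B g m i s (z - i + th * s) :=
    Finset.sum_congr rfl fun s hs => Es_eq hg (Finset.mem_filter.1 hs).1 hk h0 hkD
  rw [e2] at herr1
  have hsub : Th ⊆ Icc m i := by
    intro s hs
    exact Finset.mem_Icc.2 ⟨(hThs s hs).2.1, (hThs s hs).1⟩
  have hdiff : Icc m i \ Th = Icc m i \ typ i D := by
    ext s
    rw [Finset.mem_sdiff, Finset.mem_sdiff, hTh, Finset.mem_filter]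
    constructor
    · rintro ⟨h1, h2⟩
      exact ⟨h1, fun h => h2 ⟨h, (Finset.mem_Icc.1 h1).1⟩⟩
    · rintro ⟨h1, h2⟩
      exact ⟨h1, fun h => h2 h.1⟩
  have e3 : ∑ s ∈ Icc m i \ Th, Es d B g m i s (z - i + th * s) +
      ∑ s ∈ Th, Es d B g m i s (z - i + th * s) =
      ∑ s ∈ Icc m i, Es d B g m i s (z - i + th * s) := Finset.sum_sdiff hsub
  rw [sum_Es hps d B g hmi z, hdiff] at e3
  have herr2 : |∑ s ∈ Icc m i \ typ i D, Es d B g m i s (z - i + th * s)| ≤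
      12 * Real.exp (-((D : ℝ) ^ 2 / (2 * i))) := by
    calc |∑ s ∈ Icc m i \ typ i D, Es d B g m i s (z - i + th * s)|
        ≤ ∑ s ∈ Icc m i \ typ i D, |Es d B g m i s (z - i + th * s)| :=
          Finset.abs_sum_le_sum_abs _ _
      _ ≤ ∑ s ∈ Icc m i \ typ i D, 6 * ((i.choose s : ℝ) / 2 ^ i) := by
          refine Finset.sum_le_sum fun s _ => ?_
          have hs0 : (0 : ℝ) ≤ th * s := mul_nonneg (by linarith) (Nat.cast_nonneg s)
          have ht0 : 0 ≤ z - i + th * s := by linarith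
          refine Es_le hphi hg ht0 (H82.three_pow_le ?_)
          have := Nat.lt_floor_add_one (z - i + th * s)
          linarith
      _ = 6 * ∑ s ∈ Icc m i \ typ i D, (i.choose s : ℝ) / 2 ^ i := by rw [Finset.mul_sum]
      _ ≤ 12 * Real.exp (-((D : ℝ) ^ 2 / (2 * i))) := by
          have := nontyp hh m i D
          linarith
  -- numerical bounds
  have hzpos : 0 < z := by linarith
  have hD5 : 4 * (D : ℝ) + 5 ≤ z := by linarith
  have hb1 : 2 * (((i : ℝ) + 1) * ((4 * D + 5) * (i * (C₄ / (m : ℝ) ^ (8 * (A + 3)))))) ≤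
      2 * C₄ / z ^ A := by
    have hi1 : (i : ℝ) + 1 ≤ z := by linarith
    have hi2 : (i : ℝ) ≤ z := by linarith
    have hmz : C₄ / (m : ℝ) ^ (8 * (A + 3)) ≤ C₄ / z ^ (A + 3) := by
      apply div_le_div_of_nonneg_left hC.le (by positivity)
      rw [pow_mul]
      exact pow_le_pow_left₀ hz0 hzm (A + 3)
    calc 2 * (((i : ℝ) + 1) * ((4 * D + 5) * (i * (C₄ / (m : ℝ) ^ (8 * (A + 3)))))) ≤
        2 * (z * (z * (z * (C₄ / z ^ (A + 3))))) := by gcongr
      _ = 2 * C₄ / z ^ A := by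
        rw [show z ^ (A + 3) = z ^ A * (z * z * z) by ring]
        field_simp
  have hb2 : 12 * Real.exp (-((D : ℝ) ^ 2 / (2 * i))) ≤
      12 * (2 ^ A * (Nat.factorial (5 * A) * 4 ^ (5 * A))) / z ^ A := by
    have hiK : i ≤ 2 * K := by
      have : (i : ℝ) ≤ 2 * K := by linarith
      exact_mod_cast this
    have h1 := exp_bound_p A (K := K) (i := i) (by omega) hi0 hiK
    rw [← hD] at h1
    set E : ℝ := Real.exp (-((D : ℝ) ^ 2 / (2 * i))) with hE
    have hE0 : 0 < E := Real.exp_pos _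
    rw [le_div_iff₀ (by positivity)]
    have h2 : z ^ A ≤ 2 ^ A * (K : ℝ) ^ A := by
      rw [← mul_pow]
      exact pow_le_pow_left₀ hz0 (by linarith) A
    have h3 : E * z ^ A ≤ E * (2 ^ A * (K : ℝ) ^ A) := mul_le_mul_of_nonneg_left h2 hE0.le
    have h4 : (2 : ℝ) ^ A * ((K : ℝ) ^ A * E) ≤
        2 ^ A * (Nat.factorial (5 * A) * 4 ^ (5 * A)) :=
      mul_le_mul_of_nonneg_left h1 (by positivity)
    linarith
  have hb0 : 4 * ((4 * D + 5) * Real.exp (-((m : ℝ) / 2))) ≤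
      4 * (Nat.factorial (8 * (A + 1)) * 2 ^ (8 * (A + 1))) / z ^ A := by
    rw [le_div_iff₀ (by positivity)]
    have h1 := exp_bound_q (A + 1) hz0 hzm
    have h2 : (4 * (D : ℝ) + 5) * Real.exp (-((m : ℝ) / 2)) ≤ z * Real.exp (-((m : ℝ) / 2)) :=
      mul_le_mul_of_nonneg_right hD5 (Real.exp_pos _).le
    have h3 := mul_le_mul_of_nonneg_right h2 (show 0 ≤ z ^ A by positivity)
    have h4 : z * Real.exp (-((m : ℝ) / 2)) * z ^ A = z ^ (A + 1) * Real.exp (-((m : ℝ) / 2)) := by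
      ring
    rw [h4] at h3
    linarith
  have h3 := abs_le.1 herr1
  have h4 := abs_le.1 herr2
  have h6 := abs_le.1 herr0
  have h5 : (2 * C₄ + 12 * (2 ^ A * (Nat.factorial (5 * A) * 4 ^ (5 * A))) +
      4 * (Nat.factorial (8 * (A + 1)) * 2 ^ (8 * (A + 1)))) / z ^ A = 2 * C₄ / z ^ A +
        12 * (2 ^ A * (Nat.factorial (5 * A) * 4 ^ (5 * A))) / z ^ A +
        4 * (Nat.factorial (8 * (A + 1)) * 2 ^ (8 * (A + 1))) / z ^ A := by
    rw [add_div, add_div]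
  rw [h5, hsplit, abs_le]
  constructor
  · linarith [h3.1, h4.2, h6.1]
  · linarith [h3.2, h4.1, h6.2]

end Pool.Agent.Lib.MP_edb5be_nt.ND.H57
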