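import Pool.Agent.Lib.MP_edb5be_nt.ND.H57.TGF
import Pool.Agent.Lib.MP_edb5be_nt.ND.H57.S1BQ

/-!
# ND : S1P, TFP, TGP for families, with few steps to the final set

As TGF.lean, with `m = ⌈2 * u ^ (1/8)⌉` in place of `m = ⌈u / 250⌉`: the family only has to be
defined for the times `t ≥ u ^ (1/4)`.
-/

set_option autoImplicit false

namespace Pool.Agent.Lib.MP_edb5be_nt.ND.H57

open Finset Pool.Agent.Lib.MP_0a5adf_nt.TP Pool.Agent.Lib.MP_edb5be_nt.ND.H26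

/-- the number of odd steps that are resolved -/
noncomputable def mq (u : ℝ) : ℕ := ⌈2 * u ^ (1 / 8 : ℝ)⌉₊

/-- the numerical conditions on `mq` -/
theorem mq_ev (u : ℝ) (hu : 9 ^ 8 ≤ u) :
    4 * (mq u : ℝ) ≤ u ^ (1 / 4 : ℝ) ∧ 4 * (mq u : ℝ) ≤ u / 100 ∧ 2 * u ≤ (mq u : ℝ) ^ 8 := by
  have hu0 : (0 : ℝ) < u := by linarith [show (0 : ℝ) < 9 ^ 8 by positivity]
  set x : ℝ := u ^ (1 / 8 : ℝ) with hx
  have hx0 : 0 < x := by positivity
  have hx8 : x ^ 8 = u := by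
    rw [hx, ← Real.rpow_natCast, ← Real.rpow_mul hu0.le]
    norm_num
  have hx2 : u ^ (1 / 4 : ℝ) = x ^ 2 := by
    rw [hx, ← Real.rpow_natCast, ← Real.rpow_mul hu0.le]
    norm_num
  have hx9 : 9 ≤ x := by
    rw [← hx8] at hu
    exact le_of_pow_le_pow_left₀ (by norm_num) hx0.le hu
  have hm1 : 2 * x ≤ mq u := Nat.le_ceil _
  have hm2 : (mq u : ℝ) < 2 * x + 1 := Nat.ceil_lt_add_one (by positivity)
  have h1 : 4 * (mq u : ℝ) ≤ x ^ 2 := by nlinarith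
  refine ⟨by rw [hx2]; exact h1, ?_, ?_⟩
  · refine h1.trans ?_
    rw [← hx8, le_div_iff₀ (by norm_num)]
    have h2 : (100 : ℝ) ≤ x ^ 6 := by
      calc (100 : ℝ) ≤ 9 ^ 6 := by norm_num
        _ ≤ x ^ 6 := pow_le_pow_left₀ (by norm_num) hx9 6
    calc x ^ 2 * 100 ≤ x ^ 2 * x ^ 6 := mul_le_mul_of_nonneg_left h2 (by positivity)
      _ = x ^ 8 := by ring
  · calc 2 * u ≤ 256 * u := by linarith
      _ = (2 * x) ^ 8 := by rw [← hx8]; ring
      _ ≤ (mq u : ℝ) ^ 8 := pow_le_pow_left₀ (by positivity) hm1 8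

/-- `u ^ A * (3/5) ^ m` is bounded for `u ≤ m ^ 8` -/
theorem exists_pow_boundQ (A : ℕ) : ∃ C : ℝ, 0 < C ∧ ∀ (u : ℝ) (m : ℕ), 0 < u →
    u ≤ (m : ℝ) ^ 8 → (3 / 5 : ℝ) ^ m ≤ C / u ^ A := by
  have h : Filter.Tendsto (fun m : ℕ => (m : ℝ) ^ (8 * A) * (3 / 5 : ℝ) ^ m) Filter.atTop
      (nhds 0) :=
    tendsto_pow_const_mul_const_pow_of_lt_one (8 * A) (by norm_num) (by norm_num)
  obtain ⟨K, hK⟩ := h.bddAbove_range
  refine ⟨|K| + 1, by positivity, ?_⟩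
  intro u m hu hum
  have h1 : (m : ℝ) ^ (8 * A) * (3 / 5 : ℝ) ^ m ≤ |K| + 1 := by
    have := hK ⟨m, rfl⟩
    simp only at this
    linarith [le_abs_self K]
  rw [le_div_iff₀ (by positivity)]
  have hp : (0 : ℝ) < (3 / 5 : ℝ) ^ m := by positivity
  have h2 : u ^ A ≤ (m : ℝ) ^ (8 * A) := by
    rw [pow_mul]
    exact pow_le_pow_left₀ hu.le hum A
  calc (3 / 5 : ℝ) ^ m * u ^ A ≤ (3 / 5 : ℝ) ^ m * (m : ℝ) ^ (8 * A) :=
        mul_le_mul_of_nonneg_left h2 hp.le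
    _ = (m : ℝ) ^ (8 * A) * (3 / 5 : ℝ) ^ m := by ring
    _ ≤ |K| + 1 := h1

/-- S1P for families. -/
def S1QStatement : Prop :=
  ∀ A : ℕ, ∃ C z₀ : ℝ, 0 < C ∧
    ∀ (d : Bool) (B₀ B₁ : Set ℕ) (lo : ℕ) (g : ℝ → ℝ) (L z : ℝ) (i m : ℕ),
    z₀ ≤ z → (lo : ℝ) ≤ 97 / 100 * z → Tr d lo i B₀ B₁ → 0 ≤ L → L ≤ z ^ (A + 3) → Bump L g →
    (i : ℝ) ≤ z / 10 → 4 * m ≤ i → z ≤ (m : ℝ) ^ 8 →
    |Fm B₀ g z - ∑ c ∈ range (i + 1), PJ (i - c) (Rm d B₁ g m c) (z - c + th * m)| ≤ C / z ^ A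

/-- TFP for families: `B₀` is the set now, `B₁` the set `J` steps later, `B₂` the set after
`4 * mq u` more steps. -/
def TFQStatement : Prop :=
  ∀ A : ℕ, ∃ C u₀ : ℝ, 0 < C ∧
    ∀ (d : Bool) (B₀ B₁ B₂ : Set ℕ) (lo : ℕ) (g : ℝ → ℝ) (L u : ℝ) (J : ℕ),
    u₀ ≤ u → (lo : ℝ) ≤ 9 / 10 * u → Tr d lo (4 * mq u + J) B₀ B₂ →
    Tr d lo (4 * mq u) B₁ B₂ → 0 ≤ L → L ≤ u ^ (A + 2) → Bump L g →
    (J : ℝ) ≤ u / 20 → |Fm B₀ g u - PJ J (Fm B₁ g) u| ≤ C / u ^ A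

/-- TGP for families. -/
def TGQStatement : Prop :=
  ∀ A : ℕ, ∃ C u₀ : ℝ, 0 < C ∧ ∀ (d : Bool) (B₀ B₁ B₂ : Set ℕ) (lo : ℕ) (u : ℝ) (J : ℕ),
    u₀ ≤ u → (lo : ℝ) ≤ 9 / 10 * u → Tr d lo (4 * mq u + J) B₀ B₂ →
    Tr d lo (4 * mq u) B₁ B₂ → (J : ℝ) ≤ u / 20 →
    |Gd B₀ u - PJ J (Gd B₁) u| ≤ C / u ^ A

/-- TGP for families indexed by the time that is left. -/
def TGPQStatement : Prop :=
  ∀ A : ℕ, ∃ C u₀ : ℝ, 0 < C ∧ ∀ (d : Bool) (B : ℕ → Set ℕ) (lo t J : ℕ) (u : ℝ),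
    u₀ ≤ u → (lo : ℝ) ≤ 9 / 10 * u → InvF d B lo → (J : ℝ) ≤ u / 20 →
    u ^ (1 / 4 : ℝ) ≤ t →
    |Gd (B (t + J)) u - PJ J (Gd (B t)) u| ≤ C / u ^ A

theorem s1q (hA : S1AQStatement) (hB : S1BQStatement) : S1QStatement := by
  intro A
  obtain ⟨C₁, z₁, hC₁, h1⟩ := hA A
  obtain ⟨C₂, z₂, hC₂, h2⟩ := hB A
  refine ⟨C₁ + C₂, max z₁ (max z₂ 1), by positivity, ?_⟩
  intro d B₀ B₁ lo g L z i m hz hlo hinv hL0 hL hg hi hm hzm
  have hz1 : z₁ ≤ z := le_trans (le_max_left _ _) hz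
  have hz2 : z₂ ≤ z := le_trans (le_trans (le_max_left _ _) (le_max_right _ _)) hz
  have hz3 : 1 ≤ z := le_trans (le_trans (le_max_right _ _) (le_max_right _ _)) hz
  have hi75 : 0 < i := by
    rcases Nat.eq_zero_or_pos m with h | h
    · rw [h] at hzm
      norm_num at hzm
      linarith
    · omega
  have e1 := h1 d B₀ B₁ lo g L z i (dev ⌊z⌋₊) ⌊z - mu * i⌋₊ hz1 hlo hinv hL0 hL hg hi75 hi rfl rfl
  have e2 := h2 d B₁ g L z i m (dev ⌊z⌋₊) ⌊z - mu * i⌋₊ hz2 hg hi hm hzm rfl rfl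
  calc _ ≤ C₁ / z ^ A + C₂ / z ^ A := (abs_sub_le _ _ _).trans (add_le_add e1 e2)
    _ = (C₁ + C₂) / z ^ A := by ring

theorem tfq (h1 : S1QStatement) (hsemi : SemiStatement) (hR : RBoundStatement) :
    TFQStatement := by
  intro A
  obtain ⟨C, z₀, hC, h1⟩ := h1 A
  obtain ⟨hR1, hR2⟩ := hR
  obtain ⟨K, hK, hKb⟩ := exists_pow_boundQ A
  refine ⟨C + 2 ^ A * C + 6 * K, max (2 * |z₀|) (max (9 ^ 8) (2 ^ (A + 3))), by positivity, ?_⟩
  intro d B₀ B₁ B₂ lo g L u J hu hlo hinv0 hinv1 hL0 hL hg hJ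
  have hu0 : 2 * |z₀| ≤ u := le_trans (le_max_left _ _) hu
  have hu9 : 9 ^ 8 ≤ u := le_trans (le_trans (le_max_left _ _) (le_max_right _ _)) hu
  have hu4 : 4000 ≤ u := le_trans (by norm_num) hu9
  have huA : 2 ^ (A + 3) ≤ u := le_trans (le_trans (le_max_right _ _) (le_max_right _ _)) hu
  have hz0 : z₀ ≤ |z₀| := le_abs_self z₀
  have hz0' : 0 ≤ |z₀| := abs_nonneg z₀
  have hupos : 0 < u := by linarith
  have th0 := th_pos
  have th2 := th_lt
  obtain ⟨-, hm2, hm1⟩ := mq_ev u hu9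
  set m : ℕ := mq u with hm
  set i' : ℕ := 4 * m with hi'
  have hi'r : (i' : ℝ) = 4 * m := by rw [hi']; push_cast; ring
  set i : ℕ := i' + J with hi
  have hir : (i : ℝ) = 4 * m + J := by rw [hi]; push_cast; rw [hi'r]
  -- the formula at `(u, i)`
  have e1 := h1 d B₀ B₂ lo g L u i m (by linarith) (by linarith) hinv0 hL0
    (hL.trans (pow_le_pow_right₀ (by linarith) (by omega))) hg (by rw [hir]; linarith) (by omega)
    (by linarith)
  -- the formula at `(z_v, i')`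
  have e2 : ∀ v ∈ range (J + 1), |Fm B₁ g (u - J + th * v) -
      (fun z => ∑ c ∈ range (i' + 1), PJ (i' - c) (Rm d B₂ g m c) (z - c + th * m))
        (u - J + th * v)| ≤ 2 ^ A * C / u ^ A := by
    intro v hv
    rw [mem_range, Nat.lt_succ_iff] at hv
    have hv' : (v : ℝ) ≤ J := by exact_mod_cast hv
    have hv0 : (0 : ℝ) ≤ v := Nat.cast_nonneg v
    have hJ0 : (0 : ℝ) ≤ J := Nat.cast_nonneg J
    have hthv0 : 0 ≤ th * v := by positivity
    have hthv : th * v ≤ 8 / 5 * J := by nlinarith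
    set z : ℝ := u - J + th * v with hz
    have hz1 : 19 / 20 * u ≤ z := by linarith
    have hz2 : z ≤ 103 / 100 * u := by linarith
    have hzpos : 0 < z := by linarith
    have hL' : L ≤ z ^ (A + 3) := by
      have a2 : (u / 2) ^ (A + 3) ≤ z ^ (A + 3) :=
        pow_le_pow_left₀ (by positivity) (by linarith) _
      have a3 : u ^ (A + 2) ≤ (u / 2) ^ (A + 3) := by
        rw [div_pow, le_div_iff₀ (by positivity)]
        calc u ^ (A + 2) * 2 ^ (A + 3) ≤ u ^ (A + 2) * u :=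
              mul_le_mul_of_nonneg_left huA (by positivity)
          _ = u ^ (A + 3) := by ring
      linarith
    have e := h1 d B₁ B₂ lo g L z i' m (by linarith) (by linarith) hinv1 hL0 hL' hg
      (by rw [hi'r]; linarith) le_rfl (by linarith)
    refine e.trans ?_
    rw [div_le_div_iff₀ (by positivity) (by positivity)]
    have a4 : u ^ A ≤ 2 ^ A * z ^ A := by
      rw [← mul_pow]
      exact pow_le_pow_left₀ hupos.le (by linarith) A
    calc C * u ^ A ≤ C * (2 ^ A * z ^ A) := mul_le_mul_of_nonneg_left a4 hC.le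
      _ = 2 ^ A * C * z ^ A := by ring
  have e3 := abs_PJ_sub_le (F := Fm B₁ g) (G := fun z => ∑ c ∈ range (i' + 1),
    PJ (i' - c) (Rm d B₂ g m c) (z - c + th * m)) e2
  -- the main terms
  have e4 : PJ J (fun z => ∑ c ∈ range (i' + 1),
        PJ (i' - c) (Rm d B₂ g m c) (z - c + th * m)) u =
      ∑ c ∈ range (i' + 1), PJ (i - c) (Rm d B₂ g m c) (u - c + th * m) := by
    have a1 : PJ J (fun z => ∑ c ∈ range (i' + 1),
        PJ (i' - c) (Rm d B₂ g m c) (z - c + th * m)) u =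
        ∑ c ∈ range (i' + 1), PJ J (PJ (i' - c) (Rm d B₂ g m c)) (u - c + th * m) := by
      unfold PJ
      simp only [Finset.mul_sum]
      rw [Finset.sum_comm]
      refine Finset.sum_congr rfl fun c _ => Finset.sum_congr rfl fun v _ => ?_
      refine Finset.sum_congr rfl fun w _ => ?_
      congr 3
      ring
    rw [a1]
    refine Finset.sum_congr rfl fun c hc => ?_
    rw [mem_range, Nat.lt_succ_iff] at hc
    rw [hsemi]
    congr 1
    omega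
  -- the tail
  have e5 : ∑ c ∈ range (i + 1), PJ (i - c) (Rm d B₂ g m c) (u - c + th * m) =
      ∑ c ∈ range (i' + 1), PJ (i - c) (Rm d B₂ g m c) (u - c + th * m) +
      ∑ c ∈ Ioc (4 * m) i, PJ (i - c) (Rm d B₂ g m c) (u - c + th * m) := by
    have a1 : range (i + 1) = range (i' + 1) ∪ Ioc (4 * m) i := by
      ext c
      rw [mem_union, mem_range, mem_range, mem_Ioc]
      omega
    rw [a1, Finset.sum_union]
    rw [Finset.disjoint_left]
    intro c h1 h2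
    rw [mem_range] at h1
    rw [mem_Ioc] at h2
    omega
  have e6 : |∑ c ∈ Ioc (4 * m) i, PJ (i - c) (Rm d B₂ g m c) (u - c + th * m)| ≤
      6 * K / u ^ A := by
    refine (Finset.abs_sum_le_sum_abs _ _).trans ?_
    calc ∑ c ∈ Ioc (4 * m) i, |PJ (i - c) (Rm d B₂ g m c) (u - c + th * m)|
        ≤ ∑ c ∈ Ioc (4 * m) i, 6 * (((Fam m c).card : ℝ) / 2 ^ c) := by
          refine Finset.sum_le_sum fun c hc => ?_
          rw [mem_Ioc] at hc
          refine abs_PJ_le fun v _ => ?_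
          refine hR1 d B₂ g L m c _ hg ?_
          -- the position
          have hci : c ≤ i := hc.2
          have hcr : ((i - c : ℕ) : ℝ) = i - c := by rw [Nat.cast_sub hci]
          set t : ℝ := u - c + th * m - (i - c : ℕ) + th * v with ht
          have ht1 : 9 / 10 * u ≤ t := by
            rw [ht, hcr, hir]
            have : 0 ≤ th * m := by positivity
            have : 0 ≤ th * v := by positivity
            linarith
          have h2m : 2 * m ≤ ⌊t⌋₊ := by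
            refine Nat.le_floor ?_
            push_cast
            linarith
          calc 3 ^ m ≤ 4 ^ m := Nat.pow_le_pow_left (by norm_num) m
            _ = 2 ^ (2 * m) := by rw [pow_mul]; norm_num
            _ ≤ 2 ^ ⌊t⌋₊ := Nat.pow_le_pow_right (by norm_num) h2m
      _ = 6 * ∑ c ∈ Ioc (4 * m) i, ((Fam m c).card : ℝ) / 2 ^ c := by rw [Finset.mul_sum]
      _ ≤ 6 * (3 / 5 : ℝ) ^ m := by
          have := hR2 m i
          linarith
      _ ≤ 6 * (K / u ^ A) := by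
          have := hKb u m hupos (by linarith)
          linarith
      _ = 6 * K / u ^ A := by ring
  rw [e4] at e3
  rw [e5] at e1
  have e7 : (C + 2 ^ A * C + 6 * K) / u ^ A =
      C / u ^ A + 2 ^ A * C / u ^ A + 6 * K / u ^ A := by ring
  rw [abs_le] at e1 e3 e6 ⊢
  constructor <;> linarith [e1.1, e1.2, e3.1, e3.2, e6.1, e6.2]

theorem tgq (hT : TFQStatement) (hS : SmoothStatement) : TGQStatement := by
  intro A
  obtain ⟨C, u₀, hC, hT⟩ := hT A
  obtain ⟨K, hK, hKb⟩ := exists_two_pow_bound A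
  refine ⟨C + 2 * (3 + 2 * K), max u₀ 4, by positivity, ?_⟩
  intro d B₀ B₁ B₂ lo u J hu hlo hinv0 hinv1 hJ
  have hu0 : u₀ ≤ u := le_trans (le_max_left _ _) hu
  have hu4 : 4 ≤ u := le_trans (le_max_right _ _) hu
  have hupos : 0 < u := by linarith
  have hpow : u ≤ u ^ (A + 1) := by
    calc u = u ^ 1 := (pow_one u).symm
      _ ≤ u ^ (A + 1) := pow_le_pow_right₀ (by linarith) (by omega)
  obtain ⟨g, hg, hGF⟩ := hS (1 / u ^ (A + 1)) (by positivity) (by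
    rw [div_le_div_iff₀ (by positivity) (by norm_num)]; linarith)
  have hL : 3 / (1 / u ^ (A + 1)) = 3 * u ^ (A + 1) := by field_simp
  rw [hL] at hg
  have h1 := hT d B₀ B₁ B₂ lo g (3 * u ^ (A + 1)) u J hu0 hlo hinv0 hinv1 (by positivity) (by
    calc 3 * u ^ (A + 1) ≤ u * u ^ (A + 1) :=
          mul_le_mul_of_nonneg_right (by linarith) (by positivity)
      _ = u ^ (A + 2) := by ring) hg hJ
  -- the error of the smoothing at `z ≥ .95 u`
  have hsm : ∀ (B : Set ℕ) (z : ℝ), 19 / 20 * u ≤ z →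
      |Gd B z - Fm B g z| ≤ (3 + 2 * K) / u ^ A := by
    intro B z hz
    have hz0 : 0 ≤ z := by linarith
    refine (hGF B z hz0).trans ?_
    have h2 : 1 / (2 : ℝ) ^ z ≤ K / u ^ A := hKb u z hupos (by linarith)
    have h6 : 1 / u ^ (A + 1) ≤ 1 / u ^ A :=
      one_div_le_one_div_of_le (by positivity) (pow_le_pow_right₀ (by linarith) (by omega))
    have h7 : (3 + 2 * K) / u ^ A = 3 * (1 / u ^ A) + 2 * (K / u ^ A) := by ring
    have h8 : (2 : ℝ) / 2 ^ z = 2 * (1 / 2 ^ z) := by ring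
    rw [h7, h8]
    linarith
  have h2 : |PJ J (Gd B₁) u - PJ J (Fm B₁ g) u| ≤ (3 + 2 * K) / u ^ A := by
    refine abs_PJ_sub_le fun v _ => hsm _ _ ?_
    have : 0 ≤ th * v := mul_nonneg th_pos.le (Nat.cast_nonneg v)
    linarith
  have h3 := hsm B₀ u (by linarith)
  have e : (C + 2 * (3 + 2 * K)) / u ^ A =
      (3 + 2 * K) / u ^ A + C / u ^ A + (3 + 2 * K) / u ^ A := by ring
  rw [abs_le] at h1 h2 h3 ⊢
  constructor <;> linarith [h1.1, h1.2, h2.1, h2.2, h3.1, h3.2]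

theorem tgpq (h : TGQStatement) : TGPQStatement := by
  intro A
  obtain ⟨C, u₀, hC, h⟩ := h A
  refine ⟨C, max u₀ (9 ^ 8), hC, ?_⟩
  intro d B lo t J u hu hlo hinv hJ ht
  have hu0 : u₀ ≤ u := le_trans (le_max_left _ _) hu
  have hu9 : 9 ^ 8 ≤ u := le_trans (le_max_right _ _) hu
  obtain ⟨hm, -, -⟩ := mq_ev u hu9
  have hF : ∀ t N : ℕ, 2 ^ lo ≤ N → (N ∈ B (t + 1) ↔ T d N ∈ B t) := fun t N hN => hinv N hN t
  have hle : 4 * mq u ≤ t := by
    have : ((4 * mq u : ℕ) : ℝ) ≤ t := by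
      push_cast
      linarith
    exact_mod_cast this
  obtain ⟨r, rfl⟩ := Nat.exists_eq_add_of_le hle
  refine h d (B (4 * mq u + r + J)) (B (4 * mq u + r)) (B r) lo u J hu0 hlo ?_ ?_ hJ
  · have := Tr.ofFam (d := d) (lo := lo) hF r (4 * mq u + J)
    rwa [show r + (4 * mq u + J) = 4 * mq u + r + J by ring] at this
  · have := Tr.ofFam (d := d) (lo := lo) hF r (4 * mq u)
    rwa [show r + 4 * mq u = 4 * mq u + r by ring] at this

end Pool.Agent.Lib.MP_edb5be_nt.ND.H57
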