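import Pool.Agent.Lib.MP_edb5be_nt.ND.H57.CoreRF
import Pool.Agent.Lib.MP_edb5be_nt.ND.H57.TGQ
import Pool.Agent.Lib.MP_edb5be_nt.EQ.FmEq
import Pool.Agent.Lib.MP_edb5be_nt.ND.Smooth

/-!
# ND : the residue classes modulo `3 ^ r` have the same mass, for families, with few steps

As EqF.lean, for families that are defined for the times `t ≥ u ^ (1/4)`.
-/

set_option autoImplicit false

namespace Pool.Agent.Lib.MP_edb5be_nt.ND.H57

open Finset Pool.Agent.Lib.MP_0a5adf_nt.TP Pool.Agent.Lib.MP_0a5adf_nt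
open Pool.Agent.Lib.MP_0a5adf_nt.H55 Pool.Agent.Lib.MP_edb5be_nt.EQ

/-- The class modulo `3 ^ (s + r)` is contained in the class modulo `3 ^ s`. -/
theorem Pc_class_le (d : Bool) (i r s M : ℕ) (u : ℤ) :
    Pc (s + r) i s (sg d * M - 3 ^ s * u) ≤ Pc s i s (sg d * M) := by
  classical
  unfold Pc
  refine div_le_div_of_nonneg_right ?_ (by positivity)
  norm_cast
  refine card_le_card fun S hS => ?_
  rw [mem_filter] at hS ⊢
  refine ⟨hS.1, ?_⟩
  have h1 := H37.cast_xz (Nat.le_add_right s r) S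
  have h2 := hS.2
  push_cast at h2
  rw [h2, map_sub, map_mul, map_mul, map_pow] at h1
  rw [← h1]
  simp only [map_intCast, map_natCast, map_ofNat]
  have h3 : (3 : ZMod (3 ^ s)) ^ s = 0 := by
    have := ZMod.natCast_self (3 ^ s)
    push_cast at this
    exact this
  rw [h3, zero_mul, sub_zero]
  push_cast
  rfl

theorem Pc_diff_le (d : Bool) (i r s M : ℕ) (u : ℤ) :
    |3 ^ (s + r) * Pc (s + r) i s (sg d * M - 3 ^ s * u) - 3 ^ s * Pc s i s (sg d * M)| ≤
      3 ^ r * (3 ^ s * Pc s i s (sg d * M)) := by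
  have h1 := Pc_class_le d i r s M u
  have h2 := H82.Pc_nonneg (s + r) i s (sg d * M - 3 ^ s * u)
  have h3 := H82.Pc_nonneg s i s (sg d * M)
  have h4 : (0 : ℝ) < 3 ^ s := by positivity
  have h5 : (1 : ℝ) ≤ 3 ^ r := one_le_pow₀ (by norm_num)
  have h6 : (0 : ℝ) < 3 ^ (s + r) := by positivity
  rw [abs_le]
  constructor
  · have e1 : 0 ≤ 3 ^ (s + r) * Pc (s + r) i s (sg d * M - 3 ^ s * u) := by positivity
    have e2 : 0 ≤ 3 ^ s * Pc s i s (sg d * M) := by positivity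
    have e3 := mul_le_mul_of_nonneg_right h5 e2
    linarith
  · have e1 := mul_le_mul_of_nonneg_left h1 h6.le
    have e2 : 0 ≤ 3 ^ s * Pc s i s (sg d * M) := by positivity
    have e3 : (3 : ℝ) ^ (s + r) * Pc s i s (sg d * M) =
        3 ^ r * (3 ^ s * Pc s i s (sg d * M)) := by
      rw [pow_add]; ring
    linarith

open Classical in
/-- Comparison of the two expansions. -/
theorem main_diffQ (B : Set ℕ) (d : Bool) (i D k r : ℕ) (u : ℤ) (g : ℝ → ℝ) (z : ℝ) (E : ℕ → ℝ)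
    (hg : ∀ x, |g x| ≤ 2) (hE : ∀ s ∈ typ i D, ∑ M ∈ blk (k - 2 * D) (4 * D + 4), 1 / (M : ℝ) *
      |3 ^ (s + r) * Pc (s + r) i s (sg d * M - 3 ^ s * u) - 3 ^ s * Pc s i s (sg d * M)| ≤ E s) :
    |3 ^ r * (∑ M ∈ (blk (k - 2 * D) (4 * D + 4)).filter (fun M => M ∈ B), 1 / (M : ℝ) *
        ∑ s ∈ typ i D, 3 ^ s * Pc (s + r) i s (sg d * M - 3 ^ s * u) *
          g (Real.logb 2 M + i - th * s - z)) -
      ∑ M ∈ (blk (k - 2 * D) (4 * D + 4)).filter (fun M => M ∈ B), 1 / (M : ℝ) *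
        ∑ s ∈ typ i D, 3 ^ s * Pc s i s (sg d * M) * g (Real.logb 2 M + i - th * s - z)| ≤
      2 * (∑ s ∈ typ i D, E s) := by
  rw [mul_sum, ← sum_sub_distrib]
  refine (abs_sum_le_sum_abs _ _).trans ?_
  have h1 : ∀ M ∈ (blk (k - 2 * D) (4 * D + 4)).filter (fun M => M ∈ B),
      |3 ^ r * (1 / (M : ℝ) * ∑ s ∈ typ i D, 3 ^ s * Pc (s + r) i s (sg d * M - 3 ^ s * u) *
          g (Real.logb 2 M + i - th * s - z)) -
        1 / (M : ℝ) * ∑ s ∈ typ i D, 3 ^ s * Pc s i s (sg d * M) *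
          g (Real.logb 2 M + i - th * s - z)| ≤
      ∑ s ∈ typ i D, 2 * (1 / (M : ℝ) *
        |3 ^ (s + r) * Pc (s + r) i s (sg d * M - 3 ^ s * u) - 3 ^ s * Pc s i s (sg d * M)|) := by
    intro M _
    have e : 3 ^ r * (1 / (M : ℝ) * ∑ s ∈ typ i D,
        3 ^ s * Pc (s + r) i s (sg d * M - 3 ^ s * u) * g (Real.logb 2 M + i - th * s - z)) -
        1 / (M : ℝ) * ∑ s ∈ typ i D, 3 ^ s * Pc s i s (sg d * M) *
          g (Real.logb 2 M + i - th * s - z) =
        ∑ s ∈ typ i D, 1 / (M : ℝ) * (3 ^ (s + r) * Pc (s + r) i s (sg d * M - 3 ^ s * u) -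
          3 ^ s * Pc s i s (sg d * M)) * g (Real.logb 2 M + i - th * s - z) := by
      rw [mul_sum, mul_sum, mul_sum, ← sum_sub_distrib]
      refine sum_congr rfl fun s _ => ?_
      rw [pow_add]
      ring
    rw [e]
    refine (abs_sum_le_sum_abs _ _).trans (sum_le_sum fun s _ => ?_)
    rw [abs_mul, abs_mul, abs_of_nonneg (show (0 : ℝ) ≤ 1 / (M : ℝ) by positivity)]
    have h2 := hg (Real.logb 2 M + i - th * s - z)
    have h3 : (0 : ℝ) ≤ 1 / (M : ℝ) *
        |3 ^ (s + r) * Pc (s + r) i s (sg d * M - 3 ^ s * u) - 3 ^ s * Pc s i s (sg d * M)| := by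
      positivity
    have h4 := mul_le_mul_of_nonneg_left h2 h3
    linarith
  refine (sum_le_sum h1).trans ?_
  refine (sum_le_sum_of_subset_of_nonneg (filter_subset _ _) fun M _ _ => ?_).trans ?_
  · exact sum_nonneg fun s _ => by positivity
  rw [sum_comm, mul_sum]
  refine sum_le_sum fun s hs => ?_
  rw [← mul_sum]
  have := hE s hs
  linarith

/-- The masses of the residue classes modulo `3 ^ r`. -/
theorem fm_eqQ (r : ℕ) : ∃ C z₀ : ℝ, 0 < C ∧ ∀ (d : Bool) (B B₁ B' : Set ℕ) (lo : ℕ) (g : ℝ → ℝ)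
    (L z : ℝ) (ρ : ZMod (3 ^ r)), z₀ ≤ z → (lo : ℝ) ≤ 97 / 100 * z → Tr d lo (4 * mq z) B B₁ →
    0 ≤ L → L ≤ z ^ 3 → Bump L g → (∀ N : ℕ, N ∈ B' ↔ N ∈ B ∧ (N : ZMod (3 ^ r)) = ρ) →
    |3 ^ r * Fm B' g z - Fm B g z| ≤ C / z := by
  classical
  obtain ⟨z₁, hz₁⟩ := ev
  obtain ⟨CJ, hCJ0, hCJ⟩ := joscT 24
  refine ⟨3 ^ r * 2 + 2 + 2 * (r * 3 ^ r * CJ) +
    4 * 3 ^ r * (Nat.factorial (8 * 2) * 2 ^ (8 * 2)),
    max z₁ (max (1000 * (r + 1)) (9 ^ 8)), by positivity, ?_⟩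
  intro d B B₁ B' lo g L z ρ hz hlo hInv hL0 hLz hg hB'
  obtain ⟨e1, e2, e3, e4⟩ := hz₁ z ((le_max_left _ _).trans hz)
  have hzr : 1000 * ((r : ℝ) + 1) ≤ z :=
    (le_max_left _ _).trans ((le_max_right _ _).trans hz)
  have hz9 : 9 ^ 8 ≤ z := (le_max_right _ _).trans ((le_max_right _ _).trans hz)
  have hz0 : (0 : ℝ) < z := by linarith
  have th1 := th_ge
  have th2 := th_le
  have mu1 := mu_ge
  have mu2 := mu_le
  have hr0 : (0 : ℝ) ≤ r := Nat.cast_nonneg _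
  obtain ⟨-, hm2, hm1⟩ := mq_ev z hz9
  set m := mq z with hmdef
  have hzm : z ≤ (m : ℝ) ^ 8 := by linarith
  have hm0 : 0 < m := by
    rcases Nat.eq_zero_or_pos m with h | h
    · rw [h] at hzm
      norm_num at hzm
      linarith
    · exact h
  set i := 4 * m with hi
  have hir : (i : ℝ) = 4 * m := by rw [hi]; push_cast; ring
  have hi2 : (i : ℝ) ≤ z / 100 := by rw [hir]; exact hm2
  have hi3 : 0 < i := by omega
  set D := dev ⌊z⌋₊ with hD
  have hD2 : (D : ℝ) ≤ z / 1000 := by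
    refine le_trans ?_ e2
    rw [hD]
    unfold dev
    refine (Nat.ceil_lt_add_one (by positivity)).le.trans ?_
    have : (⌊z⌋₊ : ℝ) ^ (3 / 5 : ℝ) ≤ z ^ (3 / 5 : ℝ) :=
      Real.rpow_le_rpow (Nat.cast_nonneg _) (Nat.floor_le hz0.le) (by norm_num)
    linarith
  have hD0 : (0 : ℝ) ≤ D := Nat.cast_nonneg _
  have hi0 : (0 : ℝ) ≤ i := Nat.cast_nonneg _
  set k := ⌊z - mu * i⌋₊ with hk
  have hmi : mu * i ≤ 21 / 10000 * z :=
    (mul_le_mul mu2 hi2 hi0 (by norm_num)).trans (by linarith)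
  have hk2 : z - mu * i < k + 1 := by
    rw [hk]; exact Nat.lt_floor_add_one _
  have hkD : 2 * D ≤ k := by
    have : (2 * D : ℝ) ≤ k := by linarith
    exact_mod_cast this
  obtain ⟨u, hu⟩ := exists_u d i r ρ
  have hBr : ∀ N, N ∈ B' ↔ N ∈ B ∧ (3 ^ r : ℤ) ∣ sg d * N - 2 ^ i * u := by
    intro N
    rw [hB' N, hu N]
  have c1 := core_rF H30.dyn pathT badnT phiT d B B₁ lo g L z i D k r u B' hBr e1 e2 hlo hInv hL0 hg
    hi3 (by linarith) hD hk
  have c2 := coreF1 H30.dyn pathT badnT phiT d B B₁ lo g L z i D k e1 e2 hlo hInv hL0 hg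
    hi3 (by linarith) hD hk
  -- the error of the expansions
  have hE1 : 8 * ((z + 1) * Real.exp (-z ^ (1 / 5 : ℝ))) ≤ 1 / z := by
    rw [le_div_iff₀ hz0]
    linarith
  have hE2 : (3 * L + 4) * (2 : ℝ) ^ (-(z / 2)) * (4 * z + 5) ≤ 1 / z := by
    rw [le_div_iff₀ hz0]
    calc (3 * L + 4) * (2 : ℝ) ^ (-(z / 2)) * (4 * z + 5) * z
        ≤ (3 * z ^ 3 + 4) * (2 : ℝ) ^ (-(z / 2)) * (4 * z + 5) * z := by
          refine mul_le_mul_of_nonneg_right ?_ hz0.le
          refine mul_le_mul_of_nonneg_right ?_ (by linarith)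
          exact mul_le_mul_of_nonneg_right (by linarith) (by positivity)
      _ = z * ((3 * z ^ 3 + 4) * (2 : ℝ) ^ (-(z / 2)) * (4 * z + 5)) := by ring
      _ ≤ 1 := e4
  have hEE : 8 * ((z + 1) * Real.exp (-z ^ (1 / 5 : ℝ))) +
      (3 * L + 4) * (2 : ℝ) ^ (-(z / 2)) * (4 * z + 5) ≤ 2 / z := by
    have e : 2 / z = 1 / z + 1 / z := by ring
    rw [e]
    exact add_le_add hE1 hE2
  replace c1 := c1.trans hEE
  replace c2 := c2.trans hEE
  -- the levels
  have hlev : ∀ s ∈ typ i D, (s : ℝ) ≤ z / 100 := by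
    intro s hs
    have h1 : (s : ℝ) ≤ i := by exact_mod_cast (mem_typ.1 hs).1
    linarith
  have hpow : ∀ s ∈ typ i D, 3 ^ (s + r) ≤ 2 ^ (k - 2 * D) := by
    intro s hs
    have h1 : (3 : ℝ) ^ (s + r) ≤ 2 ^ (k - 2 * D) := by
      rw [three_pow, two_pow_sub k D hkD]
      refine Real.rpow_le_rpow_of_exponent_le (by norm_num) ?_
      push_cast
      have h2 := hlev s hs
      have h3 : th * ((s : ℝ) + r) ≤ 8 / 5 * (s + r) :=
        mul_le_mul_of_nonneg_right th2 (by positivity)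
      linarith
    exact_mod_cast h1
  have hD5 : 4 * (D : ℝ) + 5 ≤ z := by linarith
  set E0 : ℝ := z * (r * 3 ^ r * (CJ / z ^ 3)) with hE0def
  have hE00 : 0 ≤ E0 := by rw [hE0def]; positivity
  set E : ℕ → ℝ := fun s => E0 + (if s < m then 3 ^ r * (z * ((i.choose s : ℝ) / 2 ^ i)) else 0)
    with hEdef
  have hE : ∀ s ∈ typ i D, ∑ M ∈ blk (k - 2 * D) (4 * D + 4), 1 / (M : ℝ) *
      |3 ^ (s + r) * Pc (s + r) i s (sg d * M - 3 ^ s * u) - 3 ^ s * Pc s i s (sg d * M)| ≤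
        E s := by
    intro s hs
    by_cases hsm : s < m
    · -- the small levels
      have h3 : 3 ^ s ≤ 2 ^ (k - 2 * D) :=
        le_trans (Nat.pow_le_pow_right (by norm_num) (Nat.le_add_right s r)) (hpow s hs)
      have h4 := phiT.2.2.1 d s i s (k - 2 * D) (4 * D + 4) h3
      calc ∑ M ∈ blk (k - 2 * D) (4 * D + 4), 1 / (M : ℝ) *
            |3 ^ (s + r) * Pc (s + r) i s (sg d * M - 3 ^ s * u) - 3 ^ s * Pc s i s (sg d * M)|
          ≤ ∑ M ∈ blk (k - 2 * D) (4 * D + 4),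
              3 ^ r * (1 / (M : ℝ) * (3 ^ s * Pc s i s (sg d * M))) := by
            refine sum_le_sum fun M _ => ?_
            have h5 := mul_le_mul_of_nonneg_left (Pc_diff_le d i r s M u)
              (show (0 : ℝ) ≤ 1 / (M : ℝ) by positivity)
            refine h5.trans (le_of_eq ?_)
            ring
        _ = 3 ^ r * ∑ M ∈ blk (k - 2 * D) (4 * D + 4),
              1 / (M : ℝ) * (3 ^ s * Pc s i s (sg d * M)) := by rw [mul_sum]
        _ ≤ 3 ^ r * ((((4 * D + 4 : ℕ) : ℝ) + 1) * ((i.choose s : ℝ) / 2 ^ i)) :=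
            mul_le_mul_of_nonneg_left h4 (by positivity)
        _ ≤ 3 ^ r * (z * ((i.choose s : ℝ) / 2 ^ i)) := by
            refine mul_le_mul_of_nonneg_left ?_ (by positivity)
            refine mul_le_mul_of_nonneg_right ?_ (by positivity)
            push_cast
            linarith
        _ ≤ E s := by
            rw [hEdef]
            simp only [if_pos hsm]
            linarith
    · -- the other levels
      have hE' : E s = E0 := by
        rw [hEdef]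
        simp only [if_neg hsm, add_zero]
      rw [hE']
      refine (mixr H24.powsplit H24.famsplit H37.catSt massT H58.res d i s r _ _ u
        (hpow s hs)).trans ?_
      rw [hE0def]
      refine mul_le_mul ?_ ?_ (sum_nonneg fun j _ => ?_) hz0.le
      · push_cast
        linarith
      · have h2 : ∀ j ∈ range r, 3 ^ (j + 1) * Josc (s + j + 1) (i + 1 + (j + 1)) ≤
            3 ^ r * (CJ / z ^ 3) := by
          intro j hj
          have hj' : j + 1 ≤ r := mem_range.1 hj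
          have h3 := hCJ (s + j + 1) (i + 1 + (j + 1)) (by omega)
          have h4 : CJ / ((s + j + 1 : ℕ) : ℝ) ^ 24 ≤ CJ / z ^ 3 := by
            refine div_le_div_of_nonneg_left hCJ0.le (by positivity) ?_
            calc z ^ 3 ≤ ((m : ℝ) ^ 8) ^ 3 := pow_le_pow_left₀ hz0.le hzm 3
              _ = (m : ℝ) ^ 24 := by rw [← pow_mul]
              _ ≤ ((s + j + 1 : ℕ) : ℝ) ^ 24 := by
                  refine pow_le_pow_left₀ (Nat.cast_nonneg _) ?_ 24
                  exact_mod_cast (by omega : m ≤ s + j + 1)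
          have h7 : (3 : ℝ) ^ (j + 1) ≤ 3 ^ r := pow_le_pow_right₀ (by norm_num) hj'
          have h8 : 0 ≤ Josc (s + j + 1) (i + 1 + (j + 1)) := by
            rw [← Jl_self]
            unfold Jl
            exact sum_nonneg fun c _ => osc_nonneg _ _
          exact mul_le_mul h7 (h3.trans h4) h8 (by positivity)
        refine (sum_le_sum h2).trans ?_
        rw [sum_const, nsmul_eq_mul, card_range]
        exact le_of_eq (by ring)
      · refine mul_nonneg (by positivity) ?_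
        rw [← Jl_self]
        unfold Jl
        exact sum_nonneg fun c _ => osc_nonneg _ _
  have hdiff := main_diffQ B₁ d i D k r u g z E hg.bd hE
  have hcard : ((typ i D).card : ℝ) ≤ z := by
    have h1 : (typ i D).card ≤ i + 1 := by
      unfold typ
      refine (card_filter_le _ _).trans ?_
      rw [card_range]
    have h2 : ((typ i D).card : ℝ) ≤ i + 1 := by exact_mod_cast h1
    linarith
  -- the sum of the errors
  have hsmall : ∑ s ∈ (typ i D).filter (fun s => s < m), (i.choose s : ℝ) / 2 ^ i ≤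
      2 * Real.exp (-((m : ℝ) / 2)) := by
    have hsub : (typ i D).filter (fun s => s < m) ⊆
        (range (i + 1)).filter (fun k : ℕ => (i : ℝ) / 4 ≤ |(k : ℝ) - i / 2|) := by
      intro s hs'
      rw [mem_filter] at hs'
      refine mem_filter.2 ⟨mem_range.2 (by have := (mem_typ.1 hs'.1).1; omega), ?_⟩
      have h5 : (4 : ℝ) * s ≤ i := by exact_mod_cast (by omega : 4 * s ≤ i)
      rw [abs_sub_comm]
      refine le_trans ?_ (le_abs_self _)
      linarith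
    have h3 := Pool.Agent.Lib.MP_0a5adf_nt.TP.H15.hoeff i ((i : ℝ) / 4) (by positivity)
    have hi0' : (0 : ℝ) < i := by exact_mod_cast hi3
    have e : 2 * ((i : ℝ) / 4) ^ 2 / i = (m : ℝ) / 2 := by
      rw [hir]
      have : (m : ℝ) ≠ 0 := by positivity
      field_simp
      norm_num
    rw [e] at h3
    rw [← sum_div, div_le_iff₀ (by positivity)]
    calc ∑ s ∈ (typ i D).filter (fun s => s < m), (i.choose s : ℝ) ≤
        ∑ k ∈ (range (i + 1)).filter (fun k : ℕ => (i : ℝ) / 4 ≤ |(k : ℝ) - i / 2|),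
          (i.choose k : ℝ) := sum_le_sum_of_subset_of_nonneg hsub fun _ _ _ => by positivity
      _ ≤ 2 * 2 ^ i * Real.exp (-((m : ℝ) / 2)) := h3
      _ = _ := by ring
  have hsumE : ∑ s ∈ typ i D, E s ≤ z * E0 + 3 ^ r * (z * (2 * Real.exp (-((m : ℝ) / 2)))) := by
    rw [hEdef]
    simp only
    rw [sum_add_distrib, sum_const, nsmul_eq_mul, ← sum_filter, ← mul_sum, ← mul_sum]
    refine add_le_add (mul_le_mul_of_nonneg_right hcard hE00) ?_
    refine mul_le_mul_of_nonneg_left ?_ (by positivity)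
    exact mul_le_mul_of_nonneg_left hsmall hz0.le
  have hexp := exp_bound_q 2 hz0.le hzm
  have hfin : 2 * (∑ s ∈ typ i D, E s) ≤ (2 * (r * 3 ^ r * CJ) +
      4 * 3 ^ r * (Nat.factorial (8 * 2) * 2 ^ (8 * 2))) / z := by
    rw [le_div_iff₀ hz0]
    have h1 : z * (z * E0) = r * 3 ^ r * CJ := by
      rw [hE0def]
      field_simp
    have h2 := mul_le_mul_of_nonneg_left hexp (show (0 : ℝ) ≤ 3 ^ r by positivity)
    have h3 := mul_le_mul_of_nonneg_right hsumE hz0.le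
    have h4 : (z * E0 + 3 ^ r * (z * (2 * Real.exp (-((m : ℝ) / 2))))) * z =
        z * (z * E0) + 2 * (3 ^ r * (z ^ 2 * Real.exp (-((m : ℝ) / 2)))) := by ring
    rw [h4, h1] at h3
    set F : ℝ := (Nat.factorial (8 * 2) : ℝ) * 2 ^ (8 * 2) with hF
    calc 2 * (∑ s ∈ typ i D, E s) * z = 2 * ((∑ s ∈ typ i D, E s) * z) := by ring
      _ ≤ 2 * (r * 3 ^ r * CJ + 2 * (3 ^ r * (z ^ 2 * Real.exp (-((m : ℝ) / 2))))) := by
          linarith
      _ ≤ 2 * (r * 3 ^ r * CJ + 2 * (3 ^ r * F)) := by linarith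
      _ = 2 * (r * 3 ^ r * CJ) + 4 * 3 ^ r * F := by ring
  replace hdiff := hdiff.trans hfin
  set X := ∑ M ∈ (blk (k - 2 * D) (4 * D + 4)).filter (fun M => M ∈ B₁), 1 / (M : ℝ) *
        ∑ s ∈ typ i D, 3 ^ s * Pc (s + r) i s (sg d * M - 3 ^ s * u) *
          g (Real.logb 2 M + i - th * s - z) with hX
  set Y := ∑ M ∈ (blk (k - 2 * D) (4 * D + 4)).filter (fun M => M ∈ B₁), 1 / (M : ℝ) *
        ∑ s ∈ typ i D, 3 ^ s * Pc s i s (sg d * M) * g (Real.logb 2 M + i - th * s - z) with hY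
  have e : 3 ^ r * Fm B' g z - Fm B g z =
      3 ^ r * (Fm B' g z - X) + (3 ^ r * X - Y) - (Fm B g z - Y) := by ring
  rw [e]
  have h3r : (0 : ℝ) < 3 ^ r := by positivity
  calc |3 ^ r * (Fm B' g z - X) + (3 ^ r * X - Y) - (Fm B g z - Y)|
      ≤ |3 ^ r * (Fm B' g z - X) + (3 ^ r * X - Y)| + |Fm B g z - Y| := abs_sub _ _
    _ ≤ |3 ^ r * (Fm B' g z - X)| + |3 ^ r * X - Y| + |Fm B g z - Y| := by
        have := abs_add_le (3 ^ r * (Fm B' g z - X)) (3 ^ r * X - Y)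
        linarith
    _ ≤ 3 ^ r * (2 / z) + (2 * (r * 3 ^ r * CJ) +
          4 * 3 ^ r * (Nat.factorial (8 * 2) * 2 ^ (8 * 2))) / z + 2 / z := by
        rw [abs_mul, abs_of_pos h3r]
        have := mul_le_mul_of_nonneg_left c1 h3r.le
        linarith
    _ = _ := by ring

/-- The classes modulo `3 ^ r` of a family have the same block proportions. -/
theorem gd_eqQ (r : ℕ) : ∃ C z₀ : ℝ, 0 < C ∧ ∀ (d : Bool) (B : ℕ → Set ℕ) (lo t : ℕ) (z : ℝ)
    (ρ : ZMod (3 ^ r)), z₀ ≤ z → (lo : ℝ) ≤ 97 / 100 * z → InvF d B lo → z ^ (1 / 4 : ℝ) ≤ t →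
    |3 ^ r * Gd {N : ℕ | N ∈ B t ∧ (N : ZMod (3 ^ r)) = ρ} z - Gd (B t) z| ≤ C / z := by
  obtain ⟨C, z₀, hC, hfm⟩ := fm_eqQ r
  refine ⟨(3 ^ r + 1) * (3 + 2) + C, max z₀ (9 ^ 8), by positivity, ?_⟩
  intro d B lo t z ρ hz hlo hinv ht
  have h1 : z₀ ≤ z := (le_max_left _ _).trans hz
  have h9 : 9 ^ 8 ≤ z := (le_max_right _ _).trans hz
  have h2 : 4 ≤ z := le_trans (by norm_num) h9
  have hz0 : 0 < z := by linarith
  have h3r : (0 : ℝ) < 3 ^ r := by positivity
  set B' : Set ℕ := {N : ℕ | N ∈ B t ∧ (N : ZMod (3 ^ r)) = ρ} with hB'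
  obtain ⟨g, hg, hsm⟩ := smooth (1 / z) (by positivity)
    (one_div_le_one_div_of_le (by norm_num) (by linarith))
  have e3 : 3 / (1 / z) = 3 * z := by field_simp
  rw [e3] at hg
  obtain ⟨hm, -, -⟩ := mq_ev z h9
  have hle : 4 * mq z ≤ t := by
    have : ((4 * mq z : ℕ) : ℝ) ≤ t := by
      push_cast
      linarith
    exact_mod_cast this
  obtain ⟨q, hq⟩ := Nat.exists_eq_add_of_le hle
  have hTr : Tr d lo (4 * mq z) (B t) (B q) := by
    have := Tr.ofFam (d := d) (lo := lo) (fun t N hN => hinv N hN t) q (4 * mq z)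
    rwa [show q + 4 * mq z = t by rw [hq]; ring] at this
  have h4 := hfm d (B t) (B q) B' lo g (3 * z) z ρ h1 hlo hTr (by positivity) (by
    have : 3 * z ≤ z * z := mul_le_mul_of_nonneg_right (by linarith) hz0.le
    have h5 : z * z ≤ z ^ 3 := by nlinarith
    linarith) hg (fun N => Iff.rfl)
  have s1 := hsm B' z hz0.le
  have s2 := hsm (B t) z hz0.le
  have e : 3 ^ r * Gd B' z - Gd (B t) z = 3 ^ r * (Gd B' z - Fm B' g z) +
      (3 ^ r * Fm B' g z - Fm (B t) g z) - (Gd (B t) z - Fm (B t) g z) := by ring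
  have hz2 : (1 : ℝ) / 2 ^ z ≤ 1 / z := by
    refine one_div_le_one_div_of_le hz0 ?_
    have h5 := Nat.lt_floor_add_one z
    have h6 : (⌊z⌋₊ + 1 : ℕ) ≤ 2 ^ ⌊z⌋₊ := Nat.lt_two_pow_self
    have h7 : ((⌊z⌋₊ + 1 : ℕ) : ℝ) ≤ 2 ^ ⌊z⌋₊ := by exact_mod_cast h6
    have h8 : (2 : ℝ) ^ ⌊z⌋₊ ≤ 2 ^ z := by
      rw [← Real.rpow_natCast]
      exact Real.rpow_le_rpow_of_exponent_le (by norm_num) (Nat.floor_le hz0.le)
    push_cast at h7
    linarith
  have hE : 3 * (1 / z) + 2 / 2 ^ z ≤ (3 + 2) * (1 / z) := by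
    have : (2 : ℝ) / 2 ^ z = 2 * (1 / 2 ^ z) := by ring
    rw [this]
    linarith
  replace s1 := s1.trans hE
  replace s2 := s2.trans hE
  rw [e]
  calc |3 ^ r * (Gd B' z - Fm B' g z) + (3 ^ r * Fm B' g z - Fm (B t) g z) -
        (Gd (B t) z - Fm (B t) g z)|
      ≤ |3 ^ r * (Gd B' z - Fm B' g z) + (3 ^ r * Fm B' g z - Fm (B t) g z)| +
        |Gd (B t) z - Fm (B t) g z| := abs_sub _ _
    _ ≤ |3 ^ r * (Gd B' z - Fm B' g z)| + |3 ^ r * Fm B' g z - Fm (B t) g z| +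
        |Gd (B t) z - Fm (B t) g z| := by
          have := abs_add_le (3 ^ r * (Gd B' z - Fm B' g z)) (3 ^ r * Fm B' g z - Fm (B t) g z)
          linarith
    _ ≤ 3 ^ r * ((3 + 2) * (1 / z)) + C / z + (3 + 2) * (1 / z) := by
        rw [abs_mul, abs_of_pos h3r]
        have := mul_le_mul_of_nonneg_left s1 h3r.le
        linarith
    _ = _ := by ring

end Pool.Agent.Lib.MP_edb5be_nt.ND.H57
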