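import Pool.Agent.Lib.MP_edb5be_nt.ND.H57.TGQ
import Pool.Agent.Lib.MP_edb5be_nt.ND.H26.Main

/-!
# ND : `TGPFStatement` and `TGPQStatement`, unconditionally
-/

set_option autoImplicit false

namespace Pool.Agent.Lib.MP_edb5be_nt.ND.H57

open Pool.Agent.Lib.MP_0a5adf_nt.TP

theorem s1afT : S1AFStatement :=
  s1af Pool.Agent.Lib.MP_0a5adf_nt.H30.dyn pathT badnT phiT

theorem tgfT : TGFStatement := tgf (tff (s1f s1afT s1bpT) H63.semi rboundT) smooth

theorem tgpfT : TGPFStatement := tgpf tgfT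

theorem s1aqT : S1AQStatement :=
  s1aq Pool.Agent.Lib.MP_0a5adf_nt.H30.dyn pathT badnT phiT

theorem s1bqT : S1BQStatement :=
  s1bq mixT joscT psplitT phiT Pool.Agent.Lib.MP_0a5adf_nt.TP.H15.hoeff

theorem tgqT : TGQStatement := tgq (tfq (s1q s1aqT s1bqT) H63.semi rboundT) smooth

theorem tgpqT : TGPQStatement := tgpq tgqT

end Pool.Agent.Lib.MP_edb5be_nt.ND.H57
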